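import Pool.Agent.Helper20.QP.St1

/-!
# Project QD, part P, module HY1: elements of SU(1,1)
-/

set_option autoImplicit false

open Filter Topology Matrix Set Metric MeasureTheory
open scoped ComplexConjugate ENNReal

namespace Pool.Agent.Helper16.QP

open Pool.Agent.Helper35.PM Pool.Agent.Helper20.QD Pool.Agent.Helper20.QP

private lemma nsq (z : ℂ) : ‖z‖ ^ 2 = z.re ^ 2 + z.im ^ 2 := by
  rw [← Complex.normSq_eq_norm_sq, Complex.normSq_apply]
  ring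

private lemma su_det (A : SL) (h : IsSU A) :
    ((A : Mat) 0 0).re ^ 2 + ((A : Mat) 0 0).im ^ 2 -
      (((A : Mat) 0 1).re ^ 2 + ((A : Mat) 0 1).im ^ 2) = 1 := by
  have h1 : (A : Mat).det = 1 := A.det_coe
  rw [Matrix.det_fin_two, h.1, h.2, Complex.mul_conj, Complex.mul_conj,
    Complex.normSq_apply, Complex.normSq_apply] at h1
  have h2 := congrArg Complex.re h1
  simp only [Complex.sub_re, Complex.ofReal_re, Complex.one_re] at h2
  nlinarith [h2]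

private lemma sh_eq (A : SL) (h : IsSU A) : sh A = ((A : Mat) 0 0).re ^ 2 - 1 := by
  unfold sh
  rw [Matrix.trace_fin_two, h.1]
  simp only [Complex.add_re, Complex.conj_re]
  ring

private lemma key (A : SL) (h : IsSU A) (z : ℂ) :
    ‖(A : Mat) 1 0 * z ^ 2 + ((A : Mat) 1 1 - (A : Mat) 0 0) * z - (A : Mat) 0 1‖ ^ 2 =
      sh A * (1 - ‖z‖ ^ 2) ^ 2 + (((A : Mat) 0 0).im * (1 + ‖z‖ ^ 2) -
        2 * (((A : Mat) 0 1).re * z.im - ((A : Mat) 0 1).im * z.re)) ^ 2 := by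
  have hd := su_det A h
  rw [sh_eq A h, nsq, nsq, h.1, h.2, pow_two z]
  simp only [Complex.sub_re, Complex.sub_im, Complex.add_re, Complex.add_im, Complex.mul_re,
    Complex.mul_im, Complex.conj_re, Complex.conj_im]
  linear_combination (-(1 - (z.re ^ 2 + z.im ^ 2)) ^ 2) * hd

private lemma den_num (A : SL) (h : IsSU A) (z : ℂ) :
    ‖(A : Mat) 1 0 * z + (A : Mat) 1 1‖ ^ 2 - ‖(A : Mat) 0 0 * z + (A : Mat) 0 1‖ ^ 2 =
      1 - ‖z‖ ^ 2 := by
  have hd := su_det A h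
  rw [nsq, nsq, nsq, h.1, h.2]
  simp only [Complex.add_re, Complex.add_im, Complex.mul_re,
    Complex.mul_im, Complex.conj_re, Complex.conj_im]
  linear_combination (1 - (z.re ^ 2 + z.im ^ 2)) * hd

private lemma one_sub {z : ℂ} (hz : z ∈ D) : 0 < 1 - ‖z‖ ^ 2 := by
  have h1 : ‖z‖ < 1 := mem_ball_zero_iff.1 hz
  have h2 := norm_nonneg z
  nlinarith

private lemma dl_eq (hSUB : StSUB) (A : SL) (z : ℂ) (h : IsSU A) (hz : z ∈ D) :
    dl z (mob A z) =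
    ‖(A : Mat) 1 0 * z ^ 2 + ((A : Mat) 1 1 - (A : Mat) 0 0) * z - (A : Mat) 0 1‖ ^ 2 /
      (1 - ‖z‖ ^ 2) ^ 2 := by
  have hden : (A : Mat) 1 0 * z + (A : Mat) 1 1 ≠ 0 :=
    (hSUB.1 A h).2.1 z (ball_subset_closedBall hz)
  have hn : 0 < ‖(A : Mat) 1 0 * z + (A : Mat) 1 1‖ := norm_pos_iff.2 hden
  have h1 := one_sub hz
  have e1 : z - mob A z =
      ((A : Mat) 1 0 * z ^ 2 + ((A : Mat) 1 1 - (A : Mat) 0 0) * z - (A : Mat) 0 1) /
        ((A : Mat) 1 0 * z + (A : Mat) 1 1) := by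
    unfold mob
    rw [eq_div_iff hden, sub_mul, div_mul_cancel₀ _ hden]
    ring
  have e2 : 1 - ‖mob A z‖ ^ 2 = (1 - ‖z‖ ^ 2) / ‖(A : Mat) 1 0 * z + (A : Mat) 1 1‖ ^ 2 := by
    rw [← den_num A h z]
    unfold mob
    rw [norm_div, div_pow, sub_div, div_self (by positivity)]
  unfold dl
  rw [e1, e2, norm_div, div_pow]
  field_simp

private lemma dl_key (hSUB : StSUB) (A : SL) (z : ℂ) (h : IsSU A) (hz : z ∈ D) :
    dl z (mob A z) = sh A + (((A : Mat) 0 0).im * (1 + ‖z‖ ^ 2) -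
        2 * (((A : Mat) 0 1).re * z.im - ((A : Mat) 0 1).im * z.re)) ^ 2 / (1 - ‖z‖ ^ 2) ^ 2 := by
  have h1 := one_sub hz
  rw [dl_eq hSUB A z h hz, key A h z, add_div, mul_div_cancel_right₀]
  positivity

/-- the point `i κ b` -/
private lemma zk (b : ℂ) (κ : ℝ) :
    ‖Complex.I * κ * b‖ ^ 2 = κ ^ 2 * (b.re ^ 2 + b.im ^ 2) ∧
    b.re * (Complex.I * κ * b).im - b.im * (Complex.I * κ * b).re =
      κ * (b.re ^ 2 + b.im ^ 2) := by
  constructor
  · rw [nsq]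
    simp only [Complex.mul_re, Complex.mul_im, Complex.I_re, Complex.I_im, Complex.ofReal_re,
      Complex.ofReal_im]
    ring
  · simp only [Complex.mul_re, Complex.mul_im, Complex.I_re, Complex.I_im, Complex.ofReal_re,
      Complex.ofReal_im]
    ring

private lemma memD {z : ℂ} (h : ‖z‖ ^ 2 < 1) : z ∈ D := by
  rw [mem_ball_zero_iff]
  nlinarith [norm_nonneg z]

private lemma p3 (hSUB : StSUB) (A : SL) (h : IsSU A) (hs : sh A < 0) : ∃ z ∈ D, mob A z = z := by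
  have hd := su_det A h
  rw [sh_eq A h] at hs
  set b := (A : Mat) 0 1 with hb
  set α := ((A : Mat) 0 0).re with hα
  set β := ((A : Mat) 0 0).im with hβ
  have hm : 0 ≤ b.re ^ 2 + b.im ^ 2 := by positivity
  have hβ0 : β ≠ 0 := by
    intro h0
    rw [h0] at hd
    nlinarith
  obtain ⟨η, hη1, hη2⟩ : ∃ η : ℝ, η ^ 2 = 1 - α ^ 2 ∧ 0 < β * η := by
    have h1 : 0 < Real.sqrt (1 - α ^ 2) := Real.sqrt_pos.2 (by linarith)
    have h2 : Real.sqrt (1 - α ^ 2) ^ 2 = 1 - α ^ 2 := Real.sq_sqrt (by linarith)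
    rcases lt_or_gt_of_ne hβ0 with h3 | h3
    · exact ⟨-Real.sqrt (1 - α ^ 2), by rw [neg_sq, h2], by nlinarith⟩
    · exact ⟨Real.sqrt (1 - α ^ 2), h2, mul_pos h3 h1⟩
  have hη0 : η ≠ 0 := by
    intro h0
    rw [h0] at hη2
    simp at hη2
  have hs0 : β + η ≠ 0 := by
    intro h0
    have h1 : η = -β := by linarith
    rw [h1] at hη2
    nlinarith [sq_nonneg β]
  have hm2 : b.re ^ 2 + b.im ^ 2 = (β - η) * (β + η) := by nlinarith
  obtain ⟨hz1, hz2⟩ := zk b (1 / (β + η))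
  have hρ : ‖Complex.I * ((1 / (β + η) : ℝ) : ℂ) * b‖ ^ 2 = (β - η) / (β + η) := by
    rw [hz1, hm2]
    field_simp
  have hv : b.re * (Complex.I * ((1 / (β + η) : ℝ) : ℂ) * b).im -
      b.im * (Complex.I * ((1 / (β + η) : ℝ) : ℂ) * b).re = β - η := by
    rw [hz2, hm2]
    field_simp
  have hlt : (β - η) / (β + η) < 1 := by
    have h1 : 1 - (β - η) / (β + η) = 2 * (β * η + η ^ 2) / (β + η) ^ 2 := by
      field_simp
      ring
    have h2 : 0 < 2 * (β * η + η ^ 2) / (β + η) ^ 2 := by positivity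
    linarith
  have hzD : Complex.I * ((1 / (β + η) : ℝ) : ℂ) * b ∈ D := memD (by rw [hρ]; exact hlt)
  refine ⟨_, hzD, ?_⟩
  have hk := key A h (Complex.I * ((1 / (β + η) : ℝ) : ℂ) * b)
  rw [sh_eq A h, ← hb, ← hα, ← hβ, hv, hρ] at hk
  have h0 : (α ^ 2 - 1) * (1 - (β - η) / (β + η)) ^ 2 +
      (β * (1 + (β - η) / (β + η)) - 2 * (β - η)) ^ 2 = 0 := by
    have h1 : α ^ 2 - 1 = -η ^ 2 := by linarith
    rw [h1]
    field_simp
    ring
  rw [h0] at hk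
  have hN := norm_eq_zero.1 (pow_eq_zero_iff (two_ne_zero) |>.1 hk)
  have hden : (A : Mat) 1 0 * (Complex.I * ((1 / (β + η) : ℝ) : ℂ) * b) + (A : Mat) 1 1 ≠ 0 :=
    (hSUB.1 A h).2.1 _ (ball_subset_closedBall hzD)
  unfold mob
  rw [div_eq_iff hden, ← hb]
  linear_combination (-1 : ℂ) * hN

private lemma p4 (hSUB : StSUB) (A : SL) (h : IsSU A) (hs : sh A = 0) (hA1 : (A : Mat) ≠ 1)
    (hA2 : (A : Mat) ≠ -1) (ε : ℝ) (hε : 0 < ε) :
    ∃ z ∈ D, 0 < dl z (mob A z) ∧ dl z (mob A z) < ε := by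
  have hd := su_det A h
  have hs' := sh_eq A h
  rw [hs] at hs'
  obtain ⟨b, hb⟩ : ∃ b, b = (A : Mat) 0 1 := ⟨_, rfl⟩
  obtain ⟨α, hα⟩ : ∃ α, α = ((A : Mat) 0 0).re := ⟨_, rfl⟩
  obtain ⟨β, hβ⟩ : ∃ β, β = ((A : Mat) 0 0).im := ⟨_, rfl⟩
  rw [← hα, ← hβ, ← hb] at hd
  rw [← hα] at hs'
  have hm : b.re ^ 2 + b.im ^ 2 = β ^ 2 := by linarith
  have hβ0 : β ≠ 0 := by
    intro h0
    rw [h0] at hm
    have hb1 : b.re = 0 := by nlinarith [sq_nonneg b.re, sq_nonneg b.im]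
    have hb2 : b.im = 0 := by nlinarith [sq_nonneg b.re, sq_nonneg b.im]
    have hb0 : b = 0 := Complex.ext hb1 hb2
    have h01 : (A : Mat) 0 1 = 0 := by rw [← hb, hb0]
    have h10 : (A : Mat) 1 0 = 0 := by rw [h.2, h01, map_zero]
    have hsq : α = 1 ∨ α = -1 := by
      have : (α - 1) * (α + 1) = 0 := by linarith
      rcases mul_eq_zero.1 this with h1 | h1
      · left; linarith
      · right; linarith
    rcases hsq with h1 | h1
    · apply hA1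
      have h00 : (A : Mat) 0 0 = 1 := Complex.ext (by rw [← hα, h1]; simp) (by rw [← hβ, h0]; simp)
      have h11 : (A : Mat) 1 1 = 1 := by rw [h.1, h00, map_one]
      ext i j
      fin_cases i <;> fin_cases j
      · simpa using h00
      · simpa using h01
      · simpa using h10
      · simpa using h11
    · apply hA2
      have h00 : (A : Mat) 0 0 = -1 :=
        Complex.ext (by rw [← hα, h1]; simp) (by rw [← hβ, h0]; simp)
      have h11 : (A : Mat) 1 1 = -1 := by rw [h.1, h00, map_neg, map_one]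
      ext i j
      fin_cases i <;> fin_cases j
      · simpa using h00
      · simpa using h01
      · simpa using h10
      · simpa using h11
  have hβ2 : 0 < β ^ 2 := by positivity
  obtain ⟨u, hu0, hu1, hu2⟩ : ∃ u : ℝ, 0 < u ∧ u ≤ 1 / 2 ∧ β ^ 2 * u ≤ ε / 2 := by
    refine ⟨min (1 / 2) (ε / (2 * β ^ 2)), lt_min (by norm_num) (by positivity),
      min_le_left _ _, ?_⟩
    have h1 : min (1 / 2) (ε / (2 * β ^ 2)) ≤ ε / (2 * β ^ 2) := min_le_right _ _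
    have h2 := mul_le_mul_of_nonneg_left h1 hβ2.le
    refine h2.trans (le_of_eq ?_)
    field_simp
  obtain ⟨hz1, hz2⟩ := zk b ((1 - u) / β)
  have hρ : ‖Complex.I * (((1 - u) / β : ℝ) : ℂ) * b‖ ^ 2 = (1 - u) ^ 2 := by
    rw [hz1, hm]
    field_simp
  have hv : b.re * (Complex.I * (((1 - u) / β : ℝ) : ℂ) * b).im -
      b.im * (Complex.I * (((1 - u) / β : ℝ) : ℂ) * b).re = (1 - u) * β := by
    rw [hz2, hm]
    field_simp
  have hzD : Complex.I * (((1 - u) / β : ℝ) : ℂ) * b ∈ D := memD (by rw [hρ]; nlinarith)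
  refine ⟨_, hzD, ?_⟩
  have hk := dl_key hSUB A (Complex.I * (((1 - u) / β : ℝ) : ℂ) * b) h hzD
  rw [hs, ← hb, ← hβ, hv, hρ] at hk
  have h2u : 0 < 2 - u := by linarith
  have he : 0 + (β * (1 + (1 - u) ^ 2) - 2 * ((1 - u) * β)) ^ 2 / (1 - (1 - u) ^ 2) ^ 2 =
      β ^ 2 * u ^ 2 / (2 - u) ^ 2 := by
    have h1 : 1 - (1 - u) ^ 2 = u * (2 - u) := by ring
    have h2 : β * (1 + (1 - u) ^ 2) - 2 * ((1 - u) * β) = β * u ^ 2 := by ring
    rw [h1, h2]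
    field_simp
    ring
  rw [he] at hk
  rw [hk]
  constructor
  · positivity
  · rw [div_lt_iff₀ (by positivity)]
    have h1 : β ^ 2 * u ^ 2 ≤ ε / 2 := by nlinarith
    have h2 : 1 ≤ (2 - u) ^ 2 := by nlinarith
    nlinarith

private lemma p5 (hSUB : StSUB) (A : SL) (h : IsSU A) (hs : 0 < sh A) :
    ∃ z ∈ D, dl z (mob A z) = sh A := by
  have hd := su_det A h
  have hs' := sh_eq A h
  rw [hs'] at hs
  obtain ⟨b, hb⟩ : ∃ b, b = (A : Mat) 0 1 := ⟨_, rfl⟩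
  obtain ⟨α, hα⟩ : ∃ α, α = ((A : Mat) 0 0).re := ⟨_, rfl⟩
  obtain ⟨β, hβ⟩ : ∃ β, β = ((A : Mat) 0 0).im := ⟨_, rfl⟩
  rw [← hα, ← hβ, ← hb] at hd
  rw [← hα] at hs
  obtain ⟨m, hm0, hm⟩ : ∃ m : ℝ, 0 < m ∧ b.re ^ 2 + b.im ^ 2 = m ^ 2 := by
    have h1 : 0 < b.re ^ 2 + b.im ^ 2 := by nlinarith [sq_nonneg β]
    exact ⟨Real.sqrt (b.re ^ 2 + b.im ^ 2), Real.sqrt_pos.2 h1, (Real.sq_sqrt h1.le).symm⟩
  obtain ⟨η, hη0, hη⟩ : ∃ η : ℝ, 0 < η ∧ η ^ 2 = m ^ 2 - β ^ 2 := by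
    have h1 : 0 < m ^ 2 - β ^ 2 := by linarith
    exact ⟨Real.sqrt (m ^ 2 - β ^ 2), Real.sqrt_pos.2 h1, Real.sq_sqrt h1.le⟩
  obtain ⟨hz1, hz2⟩ := zk b (β / (m * (m + η)))
  have hβ2 : β ^ 2 = (m - η) * (m + η) := by linarith [hη]
  have hρ : ‖Complex.I * ((β / (m * (m + η)) : ℝ) : ℂ) * b‖ ^ 2 = (m - η) / (m + η) := by
    rw [hz1, hm, div_pow, hβ2]
    field_simp
  have hv : b.re * (Complex.I * ((β / (m * (m + η)) : ℝ) : ℂ) * b).im -
      b.im * (Complex.I * ((β / (m * (m + η)) : ℝ) : ℂ) * b).re = β * m / (m + η) := by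
    rw [hz2, hm]
    field_simp
  have hlt : (m - η) / (m + η) < 1 := by
    rw [div_lt_one (by positivity)]
    linarith
  have hzD : Complex.I * ((β / (m * (m + η)) : ℝ) : ℂ) * b ∈ D := memD (by rw [hρ]; exact hlt)
  refine ⟨_, hzD, ?_⟩
  have hk := dl_key hSUB A (Complex.I * ((β / (m * (m + η)) : ℝ) : ℂ) * b) h hzD
  rw [← hb, ← hβ, hv, hρ] at hk
  rw [hk]
  have h0 : β * (1 + (m - η) / (m + η)) - 2 * (β * m / (m + η)) = 0 := by
    field_simp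
    ring
  rw [h0]
  simp

private lemma p6 (A B : SL) : sh (B * A * B⁻¹) = sh A := by
  have h : ((B * A * B⁻¹ : SL) : Mat).trace = (A : Mat).trace := by
    rw [Matrix.SpecialLinearGroup.coe_mul, Matrix.trace_mul_comm,
      ← Matrix.SpecialLinearGroup.coe_mul]
    congr 2
    group
  unfold sh
  rw [h]

theorem hHY1 (hSUB : StSUB) : StHY1 := by
  refine ⟨fun A z h hz => dl_eq hSUB A z h hz, fun A z h hz => ?_, fun A h hs => p3 hSUB A h hs,
    fun A h hs h1 h2 ε hε => p4 hSUB A h hs h1 h2 ε hε, fun A h hs => p5 hSUB A h hs, p6⟩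
  rw [dl_key hSUB A z h hz]
  have : 0 ≤ (((A : Mat) 0 0).im * (1 + ‖z‖ ^ 2) -
        2 * (((A : Mat) 0 1).re * z.im - ((A : Mat) 0 1).im * z.re)) ^ 2 / (1 - ‖z‖ ^ 2) ^ 2 := by
    positivity
  linarith

end Pool.Agent.Helper16.QP
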