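import Pool.Agent.Helper20.QP.St2

/-!
# Project QD, part P, module PIS: from Hausdorff closeness to an automorphism
-/

set_option autoImplicit false

open Filter Topology Matrix Set Metric MeasureTheory
open scoped ComplexConjugate ENNReal

namespace Pool.Agent.Helper16.QP

open Pool.Agent.Helper35.PM Pool.Agent.Helper20.QD Pool.Agent.Helper20.QP

section

attribute [local instance] Matrix.frobeniusNormedAddCommGroup Matrix.frobeniusNormedRing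

private lemma hs_norm (A : Mat) : Real.sqrt (hs A) = ‖A‖ := by
  rw [Matrix.frobenius_norm_def, Real.sqrt_eq_rpow]
  unfold hs
  simp

private lemma hs_tri (A B C : Mat) :
    Real.sqrt (hs (A - C)) ≤ Real.sqrt (hs (A - B)) + Real.sqrt (hs (B - C)) := by
  rw [hs_norm, hs_norm, hs_norm]
  exact norm_sub_le_norm_sub_add_norm_sub A B C

private lemma hs_symm (A B : Mat) : hs (A - B) = hs (B - A) := by
  unfold hs
  refine Finset.sum_congr rfl fun i _ => Finset.sum_congr rfl fun j _ => ?_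
  rw [Matrix.sub_apply, Matrix.sub_apply, norm_sub_rev]

private lemma hs_le (A B : Mat) : Real.sqrt (hs B) ≤ Real.sqrt (hs A) + Real.sqrt (hs (A - B)) := by
  rw [hs_norm, hs_norm, hs_norm]
  have h1 : B = A - (A - B) := by abel
  calc ‖B‖ = ‖A - (A - B)‖ := by rw [← h1]
    _ ≤ ‖A‖ + ‖A - B‖ := norm_sub_le _ _

private lemma hs_mulsub (A B A' B' : Mat) : Real.sqrt (hs (A' * B' - A * B)) ≤
    Real.sqrt (hs (A' - A)) * Real.sqrt (hs B') + Real.sqrt (hs A) * Real.sqrt (hs (B' - B)) := by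
  simp_rw [hs_norm]
  have h1 : A' * B' - A * B = (A' - A) * B' + A * (B' - B) := by
    rw [sub_mul, mul_sub]
    abel
  rw [h1]
  refine (norm_add_le _ _).trans ?_
  exact add_le_add (norm_mul_le _ _) (norm_mul_le _ _)

end

private lemma hs_nn (A : Mat) : 0 ≤ hs A := by
  unfold hs
  positivity

/-- elements with close images are equal -/
private lemma eq_of_close {Γ : Type} [Group Γ] (τ : Γ →* SL) {Y ε η1 : ℝ} (hT : Thick τ ε)
    (h1 : ∀ A B : SL, hs (A : Mat) ≤ Y → hs ((A : Mat) - (B : Mat)) ≤ η1 → sh (A⁻¹ * B) < ε)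
    (x y : Γ) (hx : hs (τ x : Mat) ≤ Y) (hxy : hs ((τ x : Mat) - (τ y : Mat)) ≤ η1) : x = y := by
  by_contra hne
  have h2 := h1 (τ x) (τ y) hx hxy
  have h3 : (τ x)⁻¹ * τ y = τ (x⁻¹ * y) := by rw [map_mul, map_inv]
  rw [h3] at h2
  have h4 : x⁻¹ * y ≠ 1 := by
    intro h5
    apply hne
    rw [inv_mul_eq_one] at h5
    exact h5
  exact absurd h2 (not_lt.2 (hT _ h4))

private lemma half (b X X' ε η1 : ℝ) (hX1 : 1 ≤ X) (hXX : X' ≤ X)
    (hM : ∀ (Γ : Type) [Group Γ] (σ : Γ →* SL),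
      Fuch σ → Coc σ b → ∀ (G : Type) [Group G] (f : Γ → G),
      (∀ γ δ : Γ, hs (σ γ : Mat) ≤ X → hs (σ δ : Mat) ≤ X → hs (σ (γ * δ) : Mat) ≤ X →
        f (γ * δ) = f γ * f δ) →
      ∃ F : Γ →* G, ∀ γ : Γ, hs (σ γ : Mat) ≤ X' → F γ = f γ)
    (h1 : ∀ A B : SL, hs (A : Mat) ≤ (Real.sqrt X + 1) ^ 2 →
      hs ((A : Mat) - (B : Mat)) ≤ η1 → sh (A⁻¹ * B) < ε)
    (Γ : Type) [Group Γ] (σ τ : Γ →* SL) (hσ : Fuch σ) (hcσ : Coc σ b) (hT : Thick τ ε) (η : ℝ)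
    (hη0 : 0 ≤ η) (hη1 : η ≤ 1) (hη : η * (2 * Real.sqrt X + 2) ^ 2 ≤ η1)
    (hcl : ∀ γ, hs (σ γ : Mat) ≤ X → ∃ γ', hs ((σ γ : Mat) - (τ γ' : Mat)) ≤ η) :
    ∃ F : Γ →* Γ, ∀ γ : Γ, hs (σ γ : Mat) ≤ X' → hs ((σ γ : Mat) - (τ (F γ) : Mat)) ≤ η := by
  have hex : ∀ γ, ∃ γ', hs (σ γ : Mat) ≤ X → hs ((σ γ : Mat) - (τ γ' : Mat)) ≤ η := by
    intro γ
    by_cases h : hs (σ γ : Mat) ≤ X
    · obtain ⟨γ', h'⟩ := hcl γ h
      exact ⟨γ', fun _ => h'⟩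
    · exact ⟨1, fun h' => absurd h' h⟩
  choose f hf using hex
  have hsη0 : 0 ≤ Real.sqrt η := Real.sqrt_nonneg _
  have hsη1 : Real.sqrt η ≤ 1 := Real.sqrt_le_one.2 hη1
  have hsX : 0 ≤ Real.sqrt X := Real.sqrt_nonneg _
  have hfn : ∀ γ, hs (σ γ : Mat) ≤ X → Real.sqrt (hs (τ (f γ) : Mat)) ≤ Real.sqrt X + Real.sqrt η := by
    intro γ h
    refine (hs_le (σ γ : Mat) (τ (f γ) : Mat)).trans ?_
    exact add_le_add (Real.sqrt_le_sqrt h) (Real.sqrt_le_sqrt (hf γ h))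
  obtain ⟨F, hF⟩ := hM Γ σ hσ hcσ Γ f (by
    intro γ δ hγ hδ hγδ
    refine eq_of_close τ hT h1 (f (γ * δ)) (f γ * f δ) ?_ ?_
    · have h2 := hfn _ hγδ
      have h3 : Real.sqrt (hs (τ (f (γ * δ)) : Mat)) ≤ Real.sqrt X + 1 := h2.trans (by linarith)
      exact (Real.sqrt_le_left (by linarith)).1 h3
    · have h2 := hs_tri (τ (f (γ * δ)) : Mat) (σ (γ * δ) : Mat) (τ (f γ * f δ) : Mat)
      have h3 : Real.sqrt (hs ((τ (f (γ * δ)) : Mat) - (σ (γ * δ) : Mat))) ≤ Real.sqrt η := by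
        rw [hs_symm]
        exact Real.sqrt_le_sqrt (hf _ hγδ)
      have h4 : Real.sqrt (hs ((σ (γ * δ) : Mat) - (τ (f γ * f δ) : Mat))) ≤
          Real.sqrt η * (2 * Real.sqrt X + 1) := by
        rw [hs_symm, map_mul, map_mul, Matrix.SpecialLinearGroup.coe_mul,
          Matrix.SpecialLinearGroup.coe_mul]
        refine (hs_mulsub (σ γ : Mat) (σ δ : Mat) (τ (f γ) : Mat) (τ (f δ) : Mat)).trans ?_
        have h5 : Real.sqrt (hs ((τ (f γ) : Mat) - (σ γ : Mat))) ≤ Real.sqrt η := by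
          rw [hs_symm]
          exact Real.sqrt_le_sqrt (hf _ hγ)
        have h6 : Real.sqrt (hs ((τ (f δ) : Mat) - (σ δ : Mat))) ≤ Real.sqrt η := by
          rw [hs_symm]
          exact Real.sqrt_le_sqrt (hf _ hδ)
        have h7 : Real.sqrt (hs (τ (f δ) : Mat)) ≤ Real.sqrt X + 1 :=
          (hfn _ hδ).trans (by linarith)
        have h8 : Real.sqrt (hs (σ γ : Mat)) ≤ Real.sqrt X := Real.sqrt_le_sqrt hγ
        calc _ ≤ Real.sqrt η * (Real.sqrt X + 1) + Real.sqrt X * Real.sqrt η :=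
              add_le_add (mul_le_mul h5 h7 (Real.sqrt_nonneg _) hsη0)
                (mul_le_mul h8 h6 (Real.sqrt_nonneg _) hsX)
          _ = Real.sqrt η * (2 * Real.sqrt X + 1) := by ring
      have h5 : Real.sqrt (hs ((τ (f (γ * δ)) : Mat) - (τ (f γ * f δ) : Mat))) ≤
          Real.sqrt η * (2 * Real.sqrt X + 2) := by
        linarith
      have h6 := (Real.sqrt_le_left (by positivity)).1 h5
      rw [mul_pow, Real.sq_sqrt hη0] at h6
      exact h6.trans hη)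
  refine ⟨F, fun γ hγ => ?_⟩
  rw [hF γ hγ]
  exact hf γ (hγ.trans hXX)

theorem hPIS (hGEN : StGEN) (hMAC : StMAC) (hSEP : StSEP) : StPIS := by
  intro b ε X1 hb hε
  obtain ⟨X2, hX2⟩ := hGEN b hb
  obtain ⟨X', hX'⟩ : ∃ X' : ℝ, X' = max (max X1 X2) ((Real.sqrt X2 + 1) ^ 2) + 1 := ⟨_, rfl⟩
  have hsX2 : 0 ≤ Real.sqrt X2 := Real.sqrt_nonneg _
  have hX'1 : X1 ≤ X' := by
    have := (le_max_left X1 X2).trans (le_max_left _ ((Real.sqrt X2 + 1) ^ 2))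
    linarith
  have hX'2 : X2 ≤ X' := by
    have := (le_max_right X1 X2).trans (le_max_left _ ((Real.sqrt X2 + 1) ^ 2))
    linarith
  have hX'3 : (Real.sqrt X2 + 1) ^ 2 ≤ X' := by
    have := le_max_right (max X1 X2) ((Real.sqrt X2 + 1) ^ 2)
    linarith
  have hX'4 : 1 ≤ X' := by
    refine le_trans ?_ hX'3
    nlinarith
  obtain ⟨X, hXX, hM⟩ := hMAC b X' hb
  have hX1 : 1 ≤ X := hX'4.trans hXX
  obtain ⟨⟨η1, hη1, h1⟩, -⟩ := hSEP ((Real.sqrt X + 1) ^ 2) ε hε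
  have hsX : 0 ≤ Real.sqrt X := Real.sqrt_nonneg _
  have hden : 0 < (2 * Real.sqrt X + 2) ^ 2 := by positivity
  refine ⟨X, min 1 (η1 / (2 * Real.sqrt X + 2) ^ 2), lt_min one_pos (by positivity), ?_⟩
  intro Γ _ σ τ hσ hτ hTσ hTτ hcσ hcτ η hη0 hη hc1 hc2
  have hηle : η ≤ 1 := hη.trans (min_le_left _ _)
  have hη2 : η * (2 * Real.sqrt X + 2) ^ 2 ≤ η1 := by
    rw [← le_div_iff₀ hden]
    exact hη.trans (min_le_right _ _)
  have hη4 : (2 * Real.sqrt η) ^ 2 ≤ η1 := by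
    rw [mul_pow, Real.sq_sqrt hη0]
    refine le_trans ?_ hη2
    nlinarith [mul_nonneg hη0 hsX, mul_nonneg hη0 (sq_nonneg (Real.sqrt X))]
  obtain ⟨F, hF⟩ := half b X X' ε η1 hX1 hXX hM h1 Γ σ τ hσ hcσ hTτ η hη0 hηle hη2 hc1
  obtain ⟨H, hH⟩ := half b X X' ε η1 hX1 hXX hM h1 Γ τ σ hτ hcτ hTσ η hη0 hηle hη2 (by
    intro γ' hγ'
    obtain ⟨γ, h⟩ := hc2 γ' hγ'
    exact ⟨γ, by rw [hs_symm]; exact h⟩)
  have hXY : X ≤ (Real.sqrt X + 1) ^ 2 := by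
    have : Real.sqrt X ^ 2 = X := Real.sq_sqrt (by linarith)
    nlinarith
  -- the compositions are the identity
  have comp : ∀ (σ τ : Γ →* SL) (F H : Γ →* Γ), Fuch σ → Coc σ b → Thick σ ε →
      (∀ γ : Γ, hs (σ γ : Mat) ≤ X' → hs ((σ γ : Mat) - (τ (F γ) : Mat)) ≤ η) →
      (∀ γ : Γ, hs (τ γ : Mat) ≤ X' → hs ((τ γ : Mat) - (σ (H γ) : Mat)) ≤ η) →
      H.comp F = MonoidHom.id Γ := by
    intro σ τ F H hσ hcσ hTσ hF hH
    refine MonoidHom.eq_of_eqOn_dense (hX2 Γ σ hσ hcσ) ?_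
    intro γ hγ
    have hγ' : hs (σ γ : Mat) ≤ X2 := hγ
    have h2 := hF γ (hγ'.trans hX'2)
    have h3 : Real.sqrt (hs (τ (F γ) : Mat)) ≤ Real.sqrt X2 + 1 := by
      refine (hs_le (σ γ : Mat) (τ (F γ) : Mat)).trans ?_
      exact add_le_add (Real.sqrt_le_sqrt hγ')
        ((Real.sqrt_le_sqrt h2).trans (Real.sqrt_le_one.2 hηle))
    have h4 := (Real.sqrt_le_left (by positivity)).1 h3
    have h5 := hH (F γ) (h4.trans hX'3)
    have h6 := hs_tri (σ γ : Mat) (τ (F γ) : Mat) (σ (H (F γ)) : Mat)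
    have h7 : Real.sqrt (hs ((σ γ : Mat) - (σ (H (F γ)) : Mat))) ≤ 2 * Real.sqrt η := by
      have h8 := Real.sqrt_le_sqrt h2
      have h9 := Real.sqrt_le_sqrt h5
      linarith
    have h8 := (Real.sqrt_le_left (by positivity)).1 h7
    have h9 := eq_of_close σ hTσ h1 γ (H (F γ))
      (((hγ'.trans hX'2).trans hXX).trans hXY) (h8.trans hη4)
    show H (F γ) = γ
    exact h9.symm
  have e1 := comp σ τ F H hσ hcσ hTσ hF hH
  have e2 := comp τ σ H F hτ hcτ hTτ hH hF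
  refine ⟨MonoidHom.toMulEquiv F H e1 e2, fun γ hγ => ?_⟩
  exact hF γ (hγ.trans hX'1)

end Pool.Agent.Helper16.QP
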